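import Pool.Agent.H84.GHullA

/-! Monotone `G_δ` hull operations on Borel classes: they exist under CH, and do not exist (on
any class containing the `F_σ` sets) under WFN together with `non(N) > ℵ₁`. -/

namespace Pool.Agent.Results.MP_eb0437_lc.Indep

open Set Cardinal MeasureTheory Pool.Agent.H84.GHull

theorem result :
    ((𝔠 : Cardinal.{0}) = ℵ₁ → ∀ 𝓓 : Set (Set ℝ), (∀ D ∈ 𝓓, D ⊆ Icc 0 1) → ∃ φ, GHull 𝓓 φ) ∧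
    (WFN → (∀ X : Set ℝ, #X ≤ ℵ₁ → volume X = 0) →
      ∀ 𝓓 : Set (Set ℝ), FSigma ⊆ 𝓓 → ¬ ∃ φ, GHull 𝓓 φ) :=
  ⟨fun h _ h𝓓 => (ch_hull h).imp fun _ hφ => ⟨fun D hD => hφ.1 D (h𝓓 D hD),
    fun D hD D' hD' => hφ.2 D (h𝓓 D hD) D' (h𝓓 D' hD')⟩,
  fun h1 h2 _ h𝓓 ⟨φ, hφ⟩ => no_ghull h1 h2 ⟨φ, fun D hD => hφ.1 D (h𝓓 hD),
    fun D hD D' hD' => hφ.2 D (h𝓓 hD) D' (h𝓓 hD')⟩⟩

end Pool.Agent.Results.MP_eb0437_lc.Indep
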